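import Pool.Agent.Helper75.PX.Stmts4

/-! Row IND2t of the sheet PX: index of the square in every characteristic. -/

set_option autoImplicit false

universe u

open Module TensorProduct
open scoped Kronecker

namespace Pool.Agent.Helper75.PX

theorem st_IND2t (h1 : ST_TRR.{u}) (h2 : ST_KRO.{u}) (h3 : ST_GOLt.{u}) (h4 : ST_RK2.{u})
    (h5 : ST_INDG.{u}) (h6 : ST_TCS.{u}) : ST_IND2t.{u} := by
  intro K A _ _ _ _ _ n m hn hA hm hd hmn
  haveI : FiniteDimensional K A := Module.finite_of_finrank_pos (by rw [hA]; positivity)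
  obtain ⟨Ψ, hΨ, htr⟩ := h1 K A n hn hA
  obtain ⟨Θ, hΘ, hT⟩ := h2 K A A (AlgebraicClosure K) (Fin n) (Fin n) Ψ Ψ hΨ hΨ
  obtain ⟨k, x, y, hxy⟩ := h3 K A (AlgebraicClosure K) n Ψ hΨ hn hA htr
  have he : Θ (1 - ∑ i, x i ⊗ₜ[K] y i) = E2 (AlgebraicClosure K) n := by
    rw [map_sub, map_one, map_sum]
    simp only [hT]
    rw [hxy]
    rfl
  have hcard : Fintype.card (Fin n × Fin n) = n * n := by simp
  have hc := h6 K A A
  haveI := hc.1
  haveI := hc.2
  have hfin : finrank K (A ⊗[K] A) = Fintype.card (Fin n × Fin n) ^ 2 := by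
    rw [finrank_tensorProduct, hA, hcard]; ring
  have hrk : (Θ (1 - ∑ i, x i ⊗ₜ[K] y i)).rank = n.choose 2 := by rw [he]; exact h4 _ n
  have := h5 K (A ⊗[K] A) (Fin n × Fin n) Θ hΘ (by rw [hcard]; positivity) hfin
    (1 - ∑ i, x i ⊗ₜ[K] y i) m hm (by rw [hcard, hrk]; exact hd) (by rw [hcard]; exact hmn)
  rwa [hcard] at this

end Pool.Agent.Helper75.PX
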