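import Pool.Agent.Helper75.PX.Stmts3
import Pool.Agent.Helper31.PX.I3

/-! Row U3 of the sheet PX: vanishing traces give a central cube. -/

set_option autoImplicit false

universe u

open Module Polynomial

namespace Pool.Agent.Helper75.PX

theorem st_U3 (h1 : ST_MPD.{u}) (h2 : ST_MDV.{u}) (h4 : ST_TRM.{u}) (h5 : ST_MIN.{u}) :
    ST_U3.{u} := by
  intro K D _ _ _ _ hd h3K v hv ht1 ht2
  have : FiniteDimensional K D := Module.finite_of_finrank_pos (by rw [hd]; norm_num)
  have h9 : ((finrank K D : ℕ) : K) ≠ 0 := by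
    rw [hd]
    have : ((9 : ℕ) : K) = 3 * 3 := by norm_num
    rw [this]
    exact mul_ne_zero h3K h3K
  have hc1 := h4 K D v h9 ht1
  have hc2 := h4 K D v⁻¹ h9 ht2
  obtain ⟨hm1, hm2⟩ := h5 K D v hv
  rw [hm1] at hc2
  have hc3 := hm2 hc2
  have h0 := minpoly.aeval K v
  have hm := (minpoly.monic (Algebra.IsIntegral.isIntegral (R := K) v)).coeff_natDegree
  rcases I3_deg h1 h2 K D hd v with h | h
  · rw [h] at hc1
    have h6 := I3_one K D v h
    rw [show (1 - 1 : ℕ) = 0 from rfl] at hc1
    rw [hc1, neg_zero, map_zero] at h6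
    exact absurd h6 hv
  · rw [h] at hc1 hm
    rw [show (3 - 1 : ℕ) = 2 from rfl] at hc1
    rw [aeval_eq_sum_range, h] at h0
    simp only [Finset.sum_range_succ, Finset.sum_range_zero, hm, hc1, hc3, pow_zero, pow_one,
      one_smul, zero_smul, zero_add, add_zero] at h0
    have hvv : v * v * v = v ^ 3 := by
      rw [pow_succ, pow_two]
    have hv3 : v * v * v = algebraMap K D (-(minpoly K v).coeff 0) := by
      rw [map_neg, Algebra.algebraMap_eq_smul_one, hvv]
      exact eq_neg_of_add_eq_zero_right h0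
    refine ⟨-(minpoly K v).coeff 0, ?_, hv3⟩
    intro hz
    rw [hz, map_zero] at hv3
    exact (mul_ne_zero (mul_ne_zero hv hv) hv) hv3

end Pool.Agent.Helper75.PX
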